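import Mathlib

set_option autoImplicit false

namespace Pool.Agent.Results.MP_67ce71_gt.Counter

open Set

section
variable {X : Type} [TopologicalSpace X]

def TotPre (r : X → X → Prop) : Prop :=
  (∀ x, r x x) ∧ (∀ x y z, r x y → r y z → r x z) ∧ ∀ x y, r x y ∨ r y x

def Lsc (r : X → X → Prop) : Prop := ∀ x, IsOpen {y | r x y ∧ ¬ r y x}

def Usc (r : X → X → Prop) : Prop := ∀ x, IsOpen {y | r y x ∧ ¬ r x y}

def Rep (r : X → X → Prop) (u : X → ℝ) : Prop := ∀ x y, r x y ↔ u x ≤ u y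

variable (X)

def SRP : Prop :=
  (∀ r : X → X → Prop, TotPre r → Lsc r → ∃ u, Rep r u ∧ ∀ a, IsOpen {x | a < u x}) ∧
    ∀ r : X → X → Prop, TotPre r → Usc r → ∃ u, Rep r u ∧ ∀ a, IsOpen {x | u x < a}

def CRP : Prop := ∀ r : X → X → Prop, TotPre r → Lsc r → Usc r → ∃ u, Rep r u ∧ Continuous u

end

lemma aux (X : Type) [LinearOrder X] (hX : ∀ u : X → ℝ, ¬ u.Injective) :
    let := Topology.upperSet X
    T0Space X ∧ (∀ Y : Set X, Y.Nonempty → CRP Y) ∧ ¬ SRP X := by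
  intro _
  have ho {U : Set X} : IsOpen U ↔ IsUpperSet U := Iff.rfl
  refine ⟨⟨fun x y h => le_antisymm
    ((h.mem_open_iff (ho.2 (isUpperSet_Ici x))).1 le_rfl)
    ((h.mem_open_iff (ho.2 (isUpperSet_Ici y))).2 le_rfl)⟩, fun Y _ r h h1 h2 =>
      ⟨0, fun x y => iff_of_true (by_contra fun h3 => ?_) le_rfl, continuous_const⟩, fun h => ?_⟩
  · have k {U : Set Y} (hU : IsOpen U) {a b : Y} (h : a ≤ b) (ha : a ∈ U) : b ∈ U := by
      obtain ⟨V, hV, rfl⟩ := isOpen_induced_iff.1 hU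
      exact ho.1 hV h ha
    have h4 := (h.2.2 x y).resolve_left h3
    obtain h5 | h5 := le_total x y
    exacts [(k (h1 y) h5 ⟨h4, h3⟩).2 (h.1 _), (k (h2 x) h5 ⟨h4, h3⟩).2 (h.1 _)]
  obtain ⟨u, h1, -⟩ := h.1 (· ≤ ·) ⟨le_refl, fun _ _ _ => le_trans, le_total⟩ fun x =>
    ho.2 fun _ _ h h' => ⟨h'.1.trans h, fun h2 => h'.2 (h.trans h2)⟩
  exact hX u fun x y h => le_antisymm ((h1 x y).2 h.le) ((h1 y x).2 h.ge)

theorem result : ∃ (X : Type) (_ : TopologicalSpace X),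
    T0Space X ∧ (∀ Y : Set X, Y.Nonempty → CRP Y) ∧ ¬ SRP X := by
  classical
  exact ⟨Set ℝ, _, @aux _ (linearOrderOfSTO WellOrderingRel) Function.cantor_injective⟩

end Pool.Agent.Results.MP_67ce71_gt.Counter
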